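import Mathlib
import Pool.Agent.H82.EQ.Targets

/-!
Row CUB of the equidistribution board (MP_7ecdd4_nt): lattice points of a coset modulo `q` in a
bounded set against the volume.
-/

set_option autoImplicit false

open MeasureTheory
open Pool.Agent.H82.EQ

namespace Pool.Agent.H72.EQD

/-- the half open cube of side `q` at the lattice point `z` -/
def Cb {m : ℕ} (q : ℕ) (z : Fin m → ℤ) : Set (Fin m → ℝ) :=
  Set.pi Set.univ fun i => Set.Ico (z i : ℝ) ((z i : ℝ) + q)

lemma Cb_meas {m : ℕ} (q : ℕ) (z : Fin m → ℤ) : MeasurableSet (Cb q z) :=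
  MeasurableSet.univ_pi fun _ => measurableSet_Ico

lemma Cb_vol {m : ℕ} (q : ℕ) (z : Fin m → ℤ) : volume (Cb q z) = ENNReal.ofReal ((q : ℝ) ^ m) := by
  unfold Cb
  rw [Real.volume_pi_Ico, ← ENNReal.ofReal_prod_of_nonneg]
  · congr 1
    simp
  · intro i _
    simp

/-- the corner of the cube of `y` -/
noncomputable def cor {m : ℕ} (q : ℕ) (a : Fin m → ℤ) (y : Fin m → ℝ) : Fin m → ℤ :=
  fun i => a i + q * ⌊(y i - a i) / q⌋

lemma cor_mem {m q : ℕ} (hq : 1 ≤ q) (a : Fin m → ℤ) (y : Fin m → ℝ) : y ∈ Cb q (cor q a y) := by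
  have hq' : (0 : ℝ) < q := by exact_mod_cast hq
  intro i _
  have h1 := Int.floor_le ((y i - a i) / (q : ℝ))
  have h2 := Int.lt_floor_add_one ((y i - a i) / (q : ℝ))
  rw [le_div_iff₀ hq'] at h1
  rw [div_lt_iff₀ hq'] at h2
  simp only [cor, Set.mem_Ico]
  push_cast
  constructor
  · linarith
  · linarith

lemma cor_dvd {m : ℕ} (q : ℕ) (a : Fin m → ℤ) (y : Fin m → ℝ) (i : Fin m) :
    (q : ℤ) ∣ cor q a y i - a i := by
  simp [cor]

lemma Cb_disj {m q : ℕ} (a z w : Fin m → ℤ) (hz : ∀ i, (q : ℤ) ∣ z i - a i)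
    (hw : ∀ i, (q : ℤ) ∣ w i - a i) (hzw : z ≠ w) : Disjoint (Cb q z) (Cb q w) := by
  rw [Set.disjoint_left]
  intro y h1 h2
  apply hzw
  funext i
  have a1 := h1 i trivial
  have a2 := h2 i trivial
  simp only [Set.mem_Ico] at a1 a2
  obtain ⟨s, hs⟩ := hz i
  obtain ⟨t, ht⟩ := hw i
  have b1 : (z i : ℝ) < w i + q := lt_of_le_of_lt a1.1 a2.2
  have b2 : (w i : ℝ) < z i + q := lt_of_le_of_lt a2.1 a1.2
  have c1 : z i < w i + q := by exact_mod_cast b1
  have c2 : w i < z i + q := by exact_mod_cast b2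
  have e1 : z i = a i + q * s := by linarith
  have e2 : w i = a i + q * t := by linarith
  rw [e1, e2] at c1 c2
  have hq : (0 : ℤ) < q := by
    have : (z i : ℝ) < z i + q := lt_of_le_of_lt a1.1 a1.2
    have : z i < z i + q := by exact_mod_cast this
    linarith
  have d1 : s < t + 1 := by
    have : (q : ℤ) * s < q * (t + 1) := by linarith
    exact lt_of_mul_lt_mul_left this hq.le
  have d2 : t < s + 1 := by
    have : (q : ℤ) * t < q * (s + 1) := by linarith
    exact lt_of_mul_lt_mul_left this hq.le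
  have : s = t := by omega
  rw [e1, e2, this]

lemma Cb_near {m q : ℕ} (z : Fin m → ℤ) (y : Fin m → ℝ) (h : y ∈ Cb q z) (i : Fin m) :
    |y i - z i| ≤ q := by
  have a1 := h i trivial
  simp only [Set.mem_Ico] at a1
  rw [abs_le]
  constructor <;> linarith [Nat.cast_nonneg (α := ℝ) q]

lemma fin_lat {m : ℕ} (A : Set (Fin m → ℝ)) (hA : Bornology.IsBounded A) :
    {z : Fin m → ℤ | (fun i => (z i : ℝ)) ∈ A}.Finite := by
  obtain ⟨R, hR⟩ := hA.subset_closedBall 0
  have hsub : {z : Fin m → ℤ | (fun i => (z i : ℝ)) ∈ A} ⊆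
      Set.Icc (fun _ => -⌈R⌉) (fun _ => ⌈R⌉) := by
    intro z hz
    have h1 := hR hz
    rw [mem_closedBall_zero_iff] at h1
    have h2 : ∀ i, |(z i : ℝ)| ≤ R := fun i => by
      have := norm_le_pi_norm (fun i => (z i : ℝ)) i
      simp only [Real.norm_eq_abs] at this
      exact this.trans h1
    constructor
    · intro i
      have h3 := (abs_le.mp ((h2 i).trans (Int.le_ceil R))).1
      exact_mod_cast h3
    · intro i
      have h3 := (abs_le.mp ((h2 i).trans (Int.le_ceil R))).2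
      exact_mod_cast h3
  exact (Set.finite_Icc _ _).subset hsub

theorem pf_CUB : T_CUB := by
  intro m q a A B hq hAm hBm hAf hBf hAb hB
  set L : Set (Fin m → ℤ) := {z | (∀ i, (q : ℤ) ∣ z i - a i) ∧ (fun i => (z i : ℝ)) ∈ A} with hL
  have hLf : L.Finite := (fin_lat A hAb).subset fun z hz => hz.2
  refine ⟨hLf, ?_⟩
  have hq' : (0 : ℝ) < (q : ℝ) ^ m := by
    have : (0 : ℝ) < q := by exact_mod_cast hq
    positivity
  set U : Set (Fin m → ℝ) := ⋃ z ∈ hLf.toFinset, Cb q z with hU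
  have hUvol : volume U = (L.ncard : ENNReal) * ENNReal.ofReal ((q : ℝ) ^ m) := by
    rw [hU, measure_biUnion_finset]
    · rw [Finset.sum_congr rfl fun z _ => Cb_vol q z, Finset.sum_const,
        Set.ncard_eq_toFinset_card _ hLf, nsmul_eq_mul]
    · intro z hz w hw hzw
      have hz' : z ∈ L := by simpa using hz
      have hw' : w ∈ L := by simpa using hw
      exact Cb_disj a z w hz'.1 hw'.1 hzw
    · intro z _
      exact Cb_meas q z
  have h1 : U ⊆ A ∪ B := by
    intro y hy
    rw [hU, Set.mem_iUnion₂] at hy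
    obtain ⟨z, hz, hyz⟩ := hy
    have hz' : z ∈ L := by simpa using hz
    by_cases hyA : y ∈ A
    · exact Or.inl hyA
    · refine Or.inr (hB (fun i => (z i : ℝ)) y (fun i => ?_) hz'.2 hyA).2
      have := Cb_near z y hyz i
      rw [abs_sub_comm]
      exact this
  have h2 : A ⊆ U ∪ B := by
    intro y hy
    have hc := cor_mem hq a y
    by_cases hA' : (fun i => (cor q a y i : ℝ)) ∈ A
    · left
      rw [hU, Set.mem_iUnion₂]
      refine ⟨cor q a y, ?_, hc⟩
      rw [Set.Finite.mem_toFinset]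
      exact ⟨fun i => cor_dvd q a y i, hA'⟩
    · right
      exact (hB y _ (fun i => Cb_near _ y hc i) hy hA').1
  have hUf : volume U ≠ ⊤ := by
    rw [hUvol]
    exact ENNReal.mul_ne_top (ENNReal.natCast_ne_top _) ENNReal.ofReal_ne_top
  have g1 : (volume U).toReal ≤ (volume A).toReal + (volume B).toReal := by
    rw [← ENNReal.toReal_add hAf hBf]
    exact ENNReal.toReal_mono (ENNReal.add_ne_top.mpr ⟨hAf, hBf⟩)
      ((measure_mono h1).trans (measure_union_le _ _))
  have g2 : (volume A).toReal ≤ (volume U).toReal + (volume B).toReal := by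
    rw [← ENNReal.toReal_add hUf hBf]
    exact ENNReal.toReal_mono (ENNReal.add_ne_top.mpr ⟨hUf, hBf⟩)
      ((measure_mono h2).trans (measure_union_le _ _))
  have g3 : (volume U).toReal = (L.ncard : ℝ) * (q : ℝ) ^ m := by
    rw [hUvol, ENNReal.toReal_mul, ENNReal.toReal_natCast, ENNReal.toReal_ofReal hq'.le]
  rw [g3] at g1 g2
  have hB0 : 0 ≤ (volume B).toReal := ENNReal.toReal_nonneg
  have key : (L.ncard : ℝ) - (volume A).toReal / (q : ℝ) ^ m =
      ((L.ncard : ℝ) * (q : ℝ) ^ m - (volume A).toReal) / (q : ℝ) ^ m := by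
    field_simp
  rw [key, abs_div, abs_of_pos hq']
  apply div_le_div_of_nonneg_right _ hq'.le
  rw [abs_le]
  constructor <;> linarith

end Pool.Agent.H72.EQD
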