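import Mathlib
import Pool.Agent.H72.EQD.CUB

/-!
Riemann sums over a coset of `q ℤ ^ m`.
-/

set_option autoImplicit false

open MeasureTheory Filter

namespace Pool.Agent.H72.EQD

/-- the half open cube of side `q / R` at `z / R` -/
def Cc {m : ℕ} (R : ℝ) (q : ℕ) (z : Fin m → ℤ) : Set (Fin m → ℝ) :=
  Set.pi Set.univ fun i => Set.Ico ((z i : ℝ) / R) (((z i : ℝ) + q) / R)

lemma Cc_meas {m : ℕ} (R : ℝ) (q : ℕ) (z : Fin m → ℤ) : MeasurableSet (Cc R q z) :=
  MeasurableSet.univ_pi fun _ => measurableSet_Ico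

lemma Cc_vol {m : ℕ} (R : ℝ) (hR : 0 < R) (q : ℕ) (z : Fin m → ℤ) :
    (volume (Cc R q z)).toReal = ((q : ℝ) / R) ^ m := by
  unfold Cc
  rw [Real.volume_pi_Ico, ← ENNReal.ofReal_prod_of_nonneg, ENNReal.toReal_ofReal]
  · have : ∀ i, ((z i : ℝ) + q) / R - (z i : ℝ) / R = q / R := fun i => by ring
    simp [this, div_pow]
  · exact Finset.prod_nonneg fun i _ => by
      rw [← sub_div]
      exact div_nonneg (by simp) hR.le
  · intro i _
    rw [← sub_div]
    exact div_nonneg (by simp) hR.le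

lemma Cc_mem {m : ℕ} (R : ℝ) (hR : 0 < R) (q : ℕ) (z : Fin m → ℤ) (y : Fin m → ℝ) :
    y ∈ Cc R q z ↔ (fun i => R * y i) ∈ Cb q z := by
  simp only [Cc, Cb, Set.mem_pi, Set.mem_univ, true_implies, Set.mem_Ico]
  constructor
  · intro h i
    obtain ⟨h1, h2⟩ := h i
    rw [div_le_iff₀ hR] at h1
    rw [lt_div_iff₀ hR] at h2
    constructor <;> linarith [mul_comm (y i) R]
  · intro h i
    obtain ⟨h1, h2⟩ := h i
    constructor
    · rw [div_le_iff₀ hR]
      linarith [mul_comm (y i) R]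
    · rw [lt_div_iff₀ hR]
      linarith [mul_comm (y i) R]

/-- the nearest point of the scaled coset -/
noncomputable def cR {m : ℕ} (q : ℕ) (a : Fin m → ℤ) (R : ℝ) (y : Fin m → ℝ) : Fin m → ℝ :=
  fun i => (cor q a (fun i => R * y i) i : ℝ) / R

lemma cR_near {m q : ℕ} (hq : 1 ≤ q) (a : Fin m → ℤ) (R : ℝ) (hR : 0 < R) (y : Fin m → ℝ) :
    ‖cR q a R y - y‖ ≤ q / R := by
  rw [pi_norm_le_iff_of_nonneg (by positivity)]
  intro i
  have h := Cb_near _ _ (cor_mem hq a (fun i => R * y i)) i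
  simp only [cR, Pi.sub_apply, Real.norm_eq_abs]
  have e : (cor q a (fun i => R * y i) i : ℝ) / R - y i =
      ((cor q a (fun i => R * y i) i : ℝ) - R * y i) / R := by
    field_simp
  rw [e, abs_div, abs_of_pos hR, abs_sub_comm]
  exact div_le_div_of_nonneg_right h hR.le

lemma cR_tendsto {m q : ℕ} (hq : 1 ≤ q) (a : Fin m → ℤ) (y : Fin m → ℝ) :
    Tendsto (fun R : ℝ => cR q a R y) atTop (nhds y) := by
  rw [tendsto_iff_norm_sub_tendsto_zero]
  refine squeeze_zero' (Eventually.of_forall fun _ => norm_nonneg _) ?_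
    (tendsto_const_nhds.div_atTop tendsto_id : Tendsto (fun R : ℝ => (q : ℝ) / R) atTop (nhds 0))
  filter_upwards [eventually_gt_atTop 0] with R hR
  exact cR_near hq a R hR y

lemma cor_measurable {m : ℕ} (q : ℕ) (a : Fin m → ℤ) (R : ℝ) :
    Measurable fun y : Fin m → ℝ => cor q a (fun i => R * y i) := by
  rw [measurable_pi_iff]
  intro i
  have h1 : Measurable fun y : Fin m → ℝ => ⌊(R * y i - a i) / (q : ℝ)⌋ := by
    apply Int.measurable_floor.comp
    fun_prop
  have h2 : Measurable fun t : ℤ => a i + q * t := Measurable.of_discrete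
  exact h2.comp h1

lemma gR_measurable {m : ℕ} (q : ℕ) (a : Fin m → ℤ) (R : ℝ) (g : (Fin m → ℝ) → ℝ) :
    Measurable fun y : Fin m → ℝ => g (cR q a R y) := by
  have h2 : Measurable fun z : Fin m → ℤ => g (fun i => (z i : ℝ) / R) := Measurable.of_discrete
  exact h2.comp (cor_measurable q a R)

/-- the finite set of the points of the coset in the ball of radius `K R` -/
lemma Sfin {m : ℕ} (q : ℕ) (a : Fin m → ℤ) (K R : ℝ) (hR : 0 < R) :
    {z : Fin m → ℤ | (∀ i, (q : ℤ) ∣ z i - a i) ∧ ‖fun i => (z i : ℝ) / R‖ ≤ K}.Finite := by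
  apply (fin_lat (Metric.closedBall 0 (K * R)) Metric.isBounded_closedBall).subset
  intro z hz
  have h1 := hz.2
  have hK : 0 ≤ K := (norm_nonneg _).trans h1
  rw [pi_norm_le_iff_of_nonneg hK] at h1
  simp only [Set.mem_ofPred_eq, mem_closedBall_zero_iff]
  rw [pi_norm_le_iff_of_nonneg (by positivity)]
  intro i
  have h2 := h1 i
  rw [norm_div, Real.norm_eq_abs R, abs_of_pos hR, div_le_iff₀ hR] at h2
  exact h2

lemma gR_eq {m q : ℕ} (hq : 1 ≤ q) (a : Fin m → ℤ) (g : (Fin m → ℝ) → ℝ) (K : ℝ)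
    (hK : ∀ z, K < ‖z‖ → g z = 0) (R : ℝ) (hR : 0 < R) (y : Fin m → ℝ) :
    g (cR q a R y) = ∑ z ∈ (Sfin q a K R hR).toFinset,
      (Cc R q z).indicator (fun _ => g fun i => (z i : ℝ) / R) y := by
  have h0 : y ∈ Cc R q (cor q a fun i => R * y i) := by
    rw [Cc_mem R hR]
    exact cor_mem hq a _
  rw [Finset.sum_eq_single (cor q a fun i => R * y i)]
  · rw [Set.indicator_of_mem h0]
    rfl
  · intro z hz hne
    apply Set.indicator_of_notMem
    intro hy
    rw [Cc_mem R hR] at hy h0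
    have hz' : (∀ i, (q : ℤ) ∣ z i - a i) := by
      have := (Set.Finite.mem_toFinset _).mp hz
      exact this.1
    exact Set.disjoint_left.mp (Cb_disj a z _ hz' (fun i => cor_dvd q a _ i) hne) hy h0
  · intro hn
    rw [Set.indicator_of_mem h0]
    apply hK
    by_contra hlt
    apply hn
    rw [Set.Finite.mem_toFinset]
    exact ⟨fun i => cor_dvd q a _ i, not_lt.mp hlt⟩

lemma gR_integral {m q : ℕ} (hq : 1 ≤ q) (a : Fin m → ℤ) (g : (Fin m → ℝ) → ℝ) (K : ℝ)
    (hK : ∀ z, K < ‖z‖ → g z = 0) (R : ℝ) (hR : 0 < R) :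
    ∫ y, g (cR q a R y) =
      ((q : ℝ) / R) ^ m * ∑ z ∈ (Sfin q a K R hR).toFinset, g fun i => (z i : ℝ) / R := by
  simp_rw [gR_eq hq a g K hK R hR]
  have hint : ∀ z : Fin m → ℤ, Integrable
      ((Cc R q z).indicator (fun _ => g fun i => (z i : ℝ) / R)) := by
    intro z
    rw [integrable_indicator_iff (Cc_meas R q z)]
    apply integrableOn_const
    · unfold Cc
      rw [Real.volume_pi_Ico, ← ENNReal.ofReal_prod_of_nonneg]
      · exact ENNReal.ofReal_ne_top
      · intro i _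
        rw [← sub_div]
        exact div_nonneg (by simp) hR.le
    · exact enorm_ne_top
  rw [integral_finsetSum _ fun z _ => hint z, Finset.mul_sum]
  apply Finset.sum_congr rfl
  intro z _
  rw [integral_indicator (Cc_meas R q z), setIntegral_const, measureReal_def, Cc_vol R hR,
    smul_eq_mul]

lemma tsum_S {m q : ℕ} (a : Fin m → ℤ) (g : (Fin m → ℝ) → ℝ) (K : ℝ)
    (hK : ∀ z, K < ‖z‖ → g z = 0) (R : ℝ) (hR : 0 < R) :
    (∑' z : Fin m → ℤ, if (∀ i, (q : ℤ) ∣ z i - a i) then g (fun i => (z i : ℝ) / R) else 0) =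
      ∑ z ∈ (Sfin q a K R hR).toFinset, g fun i => (z i : ℝ) / R := by
  classical
  rw [tsum_eq_sum (s := (Sfin q a K R hR).toFinset)]
  · apply Finset.sum_congr rfl
    intro z hz
    rw [if_pos]
    exact ((Set.Finite.mem_toFinset _).mp hz).1
  · intro z hz
    split_ifs with h
    · apply hK
      by_contra hlt
      apply hz
      rw [Set.Finite.mem_toFinset]
      exact ⟨h, not_lt.mp hlt⟩
    · rfl

/-- Riemann sums over a coset of `q ℤ ^ m`. -/
theorem rie {m q : ℕ} (hq : 1 ≤ q) (a : Fin m → ℤ) (g : (Fin m → ℝ) → ℝ) (B K : ℝ)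
    (hB : ∀ z, |g z| ≤ B) (hK : ∀ z, K < ‖z‖ → g z = 0) (hc : ∀ᵐ z, ContinuousAt g z) :
    Tendsto (fun R : ℝ => (R ^ m)⁻¹ * ∑' z : Fin m → ℤ,
      if (∀ i, (q : ℤ) ∣ z i - a i) then g (fun i => (z i : ℝ) / R) else 0) atTop
      (nhds (((q : ℝ) ^ m)⁻¹ * ∫ z, g z)) := by
  have hB0 : 0 ≤ B := (abs_nonneg _).trans (hB 0)
  have hq' : (0 : ℝ) < q := by exact_mod_cast hq
  have key : Tendsto (fun R : ℝ => ∫ y, g (cR q a R y)) atTop (nhds (∫ z, g z)) := by
    apply tendsto_integral_filter_of_dominated_convergence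
      ((Metric.closedBall (0 : Fin m → ℝ) (K + q)).indicator fun _ => B)
    · exact Eventually.of_forall fun R => (gR_measurable q a R g).aestronglyMeasurable
    · filter_upwards [eventually_ge_atTop 1] with R hR
      refine Eventually.of_forall fun y => ?_
      have hR0 : (0 : ℝ) < R := lt_of_lt_of_le one_pos hR
      by_cases hy : y ∈ Metric.closedBall (0 : Fin m → ℝ) (K + q)
      · rw [Set.indicator_of_mem hy]
        exact hB _
      · rw [Set.indicator_of_notMem hy, hK]
        · simp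
        · rw [mem_closedBall_zero_iff, not_le] at hy
          have h1 := cR_near hq a R hR0 y
          have h2 : (q : ℝ) / R ≤ q := div_le_self hq'.le hR
          have h3 : ‖y‖ ≤ ‖cR q a R y‖ + ‖cR q a R y - y‖ := by
            have := norm_sub_le (cR q a R y) (cR q a R y - y)
            simpa using this
          linarith
    · rw [integrable_indicator_iff Metric.isClosed_closedBall.measurableSet]
      apply integrableOn_const
      · exact measure_closedBall_lt_top.ne
      · exact enorm_ne_top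
    · filter_upwards [hc] with y hy
      exact hy.tendsto.comp (cR_tendsto hq a y)
  have key2 := key.const_mul (((q : ℝ) ^ m)⁻¹)
  refine key2.congr' ?_
  filter_upwards [eventually_gt_atTop 0] with R hR
  rw [gR_integral hq a g K hK R hR, tsum_S a g K hK R hR, ← mul_assoc]
  congr 1
  rw [div_pow]
  field_simp

end Pool.Agent.H72.EQD
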